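import Pool.Agent.Lib.TAO.Basic
import Mathlib

/-!
# TANK G: the levels lemma

`T` is an integrally closed local ring dominated by `v`, `S` a finite additive group whose nonzero
elements are totally ordered by divisibility in `T`, `F = ∏ s ∈ S, (z - s)`. If the monomials in
`F` and in the base monomials (`B`) of value `≥ 0` are in `T`, then so are the monomials in
`w = z - s₀` and in the base monomials, `w` of maximal value.
-/

set_option autoImplicit false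

open Polynomial

namespace Pool.Agent.TGH17

open Pool.Agent.TAO (OVal VPos)

universe u w

section Abstract

variable {k Ω : Type u} [Field k] [Field Ω] [Algebra k Ω]

theorem isIntegral_of_prod {T : Subalgebra k Ω} {ι : Type*} (s : Finset ι) (hs : s.Nonempty)
    (c : ι → Ω) (hc : ∀ i ∈ s, c i ∈ T) {x : Ω} (hx : ∏ i ∈ s, (x - c i) ∈ T) :
    IsIntegral T x := by
  classical
  let c' : ι → T := fun i => if h : c i ∈ T then ⟨c i, h⟩ else 0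
  have hc' : ∀ i ∈ s, algebraMap T Ω (c' i) = c i := by
    intro i hi
    simp only [c', dif_pos (hc i hi)]
    rfl
  let t : T := ⟨_, hx⟩
  let P : Polynomial T := ∏ i ∈ s, (X - C (c' i)) - C t
  have hdeg : (∏ i ∈ s, (X - C (c' i)) : Polynomial T).natDegree = s.card := by
    rw [natDegree_finsetProd_X_sub_C_eq_card]
  have hm : (∏ i ∈ s, (X - C (c' i)) : Polynomial T).Monic := monic_prod_X_sub_C c' s
  have hmP : P.Monic := by
    refine hm.sub_of_left (lt_of_le_of_lt degree_C_le ?_)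
    rw [degree_eq_natDegree hm.ne_zero, hdeg]
    exact_mod_cast Finset.card_pos.2 hs
  refine ⟨P, hmP, ?_⟩
  change eval₂ (algebraMap T Ω) x P = 0
  simp only [P]
  rw [eval₂_sub, eval₂_C, eval₂_finsetProd]
  rw [sub_eq_zero]
  change _ = ∏ i ∈ s, (x - c i)
  refine Finset.prod_congr rfl fun i hi => ?_
  rw [eval₂_sub, eval₂_X, eval₂_C, hc' i hi]

theorem isIntegral_inv_of_prod {T : Subalgebra k Ω} {ι : Type*} [DecidableEq ι] (s : Finset ι)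
    (c : ι → Ω) (hc : ∀ i ∈ s, c i ∈ T) {x : Ω} (hx0 : x ≠ 0) {o : ι} (ho : o ∈ s)
    (hco : c o = 0) (hne : ∀ i ∈ s, x - c i ≠ 0) (hx : (∏ i ∈ s, (x - c i))⁻¹ ∈ T) :
    IsIntegral T x⁻¹ := by
  classical
  let c' : ι → T := fun i => if h : c i ∈ T then ⟨c i, h⟩ else 0
  have hc' : ∀ i ∈ s, algebraMap T Ω (c' i) = c i := by
    intro i hi
    simp only [c', dif_pos (hc i hi)]
    rfl
  let u : T := ⟨_, hx⟩
  let Q : Polynomial T := C u * ∏ i ∈ s.erase o, (1 - C (c' i) * X)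
  have hQ : Q.degree < (s.card : WithBot ℕ) := by
    have h1 : Q.degree ≤ ((s.erase o).card : WithBot ℕ) := by
      refine (degree_mul_le _ _).trans ?_
      have h2 : (C u : Polynomial T).degree ≤ 0 := degree_C_le
      have h3 : (∏ i ∈ s.erase o, (1 - C (c' i) * X) : Polynomial T).degree ≤
          ((s.erase o).card : WithBot ℕ) := by
        refine (degree_prod_le _ _).trans ?_
        have h4 : ∀ i ∈ s.erase o, (1 - C (c' i) * X : Polynomial T).degree ≤ 1 := by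
          intro i _
          refine (degree_sub_le _ _).trans (max_le ?_ ?_)
          · exact degree_one_le.trans (by norm_num)
          · exact degree_C_mul_X_le _
        refine (Finset.sum_le_sum h4).trans ?_
        rw [Finset.sum_const, nsmul_one]
      calc (C u : Polynomial T).degree + (∏ i ∈ s.erase o, (1 - C (c' i) * X)).degree
          ≤ 0 + ((s.erase o).card : WithBot ℕ) := add_le_add h2 h3
        _ = ((s.erase o).card : WithBot ℕ) := zero_add _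
    refine lt_of_le_of_lt h1 ?_
    have h5 := Finset.card_erase_lt_of_mem ho
    exact_mod_cast h5
  refine ⟨X ^ s.card - Q, (monic_X_pow _).sub_of_left (by rwa [degree_X_pow]), ?_⟩
  change eval₂ (algebraMap T Ω) x⁻¹ (X ^ s.card - Q) = 0
  simp only [Q]
  rw [eval₂_sub, eval₂_pow, eval₂_X, eval₂_mul, eval₂_C, eval₂_finsetProd, sub_eq_zero]
  have h6 : ∏ i ∈ s.erase o, eval₂ (algebraMap T Ω) x⁻¹ (1 - C (c' i) * X) =
      ∏ i ∈ s.erase o, ((x - c i) * x⁻¹) := by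
    refine Finset.prod_congr rfl fun i hi => ?_
    rw [eval₂_sub, eval₂_one, eval₂_mul, eval₂_C, eval₂_X, hc' i (Finset.mem_of_mem_erase hi),
      sub_mul, mul_inv_cancel₀ hx0]
  rw [h6, Finset.prod_mul_distrib, Finset.prod_const]
  have h7 : algebraMap T Ω u = (∏ i ∈ s, (x - c i))⁻¹ := rfl
  rw [h7, ← Finset.mul_prod_erase s (fun i => x - c i) ho, hco, sub_zero, mul_inv]
  have h8 : (∏ i ∈ s.erase o, (x - c i)) ≠ 0 :=
    Finset.prod_ne_zero_iff.2 fun i hi => hne i (Finset.mem_of_mem_erase hi)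
  have h9 : s.card = (s.erase o).card + 1 := by
    rw [Finset.card_erase_of_mem ho]
    have := Finset.card_pos.2 ⟨o, ho⟩
    omega
  rw [h9, pow_succ]
  field_simp

end Abstract

section Levels

variable {k Ω : Type u} [Field k] [Field Ω] [Algebra k Ω] {𝕂 : Type w} [Field 𝕂] [LinearOrder 𝕂]
  [IsStrictOrderedRing 𝕂]

/-- The data of the levels lemma. `S` is a finite additive group, `B` a group of base
monomials. -/
structure LD (v : OVal 𝕂 Ω) (T : Subalgebra k Ω) (Λ : Subalgebra k Ω) (S : Finset Ω) (B : Set Ω)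
    (z : Ω) : Prop where
  nonneg : ∀ f ∈ T, v.Ge 0 f
  loc : ∀ f ∈ T, f ≠ 0 → v f = 0 → f⁻¹ ∈ T
  nrm : ∀ x ∈ Λ, IsIntegral T x → x ∈ T
  inv_Λ : ∀ x ∈ Λ, x⁻¹ ∈ Λ
  z_mem : z ∈ Λ
  S_zero : (0 : Ω) ∈ S
  S_add : ∀ a ∈ S, ∀ b ∈ S, a + b ∈ S
  S_neg : ∀ a ∈ S, -a ∈ S
  z_ne : ∀ s ∈ S, z ≠ s
  dvd : ∀ s ∈ S, ∀ s' ∈ S, s ≠ 0 → s' ≠ 0 → v s ≤ v s' → s' / s ∈ T
  B_S : ∀ s ∈ S, s ≠ 0 → s ∈ B
  B_ne : ∀ b ∈ B, b ≠ 0
  B_Λ : ∀ b ∈ B, b ∈ Λ
  B_one : (1 : Ω) ∈ B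
  B_mul : ∀ b ∈ B, ∀ b' ∈ B, b * b' ∈ B
  B_inv : ∀ b ∈ B, b⁻¹ ∈ B
  key : ∀ b ∈ B, ∀ a : ℤ, 0 ≤ v ((∏ s ∈ S, (z - s)) ^ a * b) →
    (∏ s ∈ S, (z - s)) ^ a * b ∈ T

/-- `f` is a unit of `T`. -/
def UnT (v : OVal 𝕂 Ω) (T : Subalgebra k Ω) (f : Ω) : Prop := f ∈ T ∧ f ≠ 0 ∧ v f = 0

variable {v : OVal 𝕂 Ω} {T Λ : Subalgebra k Ω} {S : Finset Ω} {B : Set Ω} {z : Ω}

namespace LD

theorem B_pow (h : LD v T Λ S B z) {b : Ω} (hb : b ∈ B) (n : ℕ) : b ^ n ∈ B := by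
  induction n with
  | zero => rw [pow_zero]; exact h.B_one
  | succ n ih => rw [pow_succ]; exact h.B_mul _ ih _ hb

theorem B_zpow (h : LD v T Λ S B z) {b : Ω} (hb : b ∈ B) (n : ℤ) : b ^ n ∈ B := by
  cases n with
  | ofNat n =>
    rw [Int.ofNat_eq_natCast, zpow_natCast]
    exact h.B_pow hb n
  | negSucc n => rw [zpow_negSucc]; exact h.B_inv _ (h.B_pow hb _)

theorem B_prod (h : LD v T Λ S B z) {ι : Type*} (s : Finset ι) (f : ι → Ω)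
    (hf : ∀ i ∈ s, f i ∈ B) : ∏ i ∈ s, f i ∈ B := by
  classical
  induction s using Finset.induction_on with
  | empty => rw [Finset.prod_empty]; exact h.B_one
  | insert a s ha ih =>
    rw [Finset.prod_insert ha]
    exact h.B_mul _ (hf a (Finset.mem_insert_self a s)) _
      (ih fun i hi => hf i (Finset.mem_insert_of_mem hi))

theorem S_sub (h : LD v T Λ S B z) {a b : Ω} (ha : a ∈ S) (hb : b ∈ S) : a - b ∈ S := by
  rw [sub_eq_add_neg]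
  exact h.S_add _ ha _ (h.S_neg _ hb)

theorem T_unit_inv (h : LD v T Λ S B z) {f : Ω} (hf : UnT v T f) : f⁻¹ ∈ T :=
  h.loc f hf.1 hf.2.1 hf.2.2

/-- Translation of the product by an element of `S`. -/
theorem prod_eq (h : LD v T Λ S B z) {s₀ : Ω} (hs₀ : s₀ ∈ S) :
    ∏ s ∈ S, (z - s) = ∏ s ∈ S, (z - s₀ - s) := by
  refine Finset.prod_bij' (fun s _ => s - s₀) (fun s _ => s + s₀) ?_ ?_ ?_ ?_ ?_
  · intro s hs
    exact h.S_sub hs hs₀
  · intro s hs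
    exact h.S_add _ hs _ hs₀
  · intro s _
    ring
  · intro s _
    ring
  · intro s _
    ring

section W

variable (h : LD v T Λ S B z) {s₀ : Ω} (hs₀ : s₀ ∈ S) (hmax : ∀ s ∈ S, v (z - s) ≤ v (z - s₀))

include h hs₀

theorem w_ne : z - s₀ ≠ 0 := sub_ne_zero.2 (h.z_ne _ hs₀)

theorem ws_ne {s : Ω} (hs : s ∈ S) : z - s₀ - s ≠ 0 := by
  rw [sub_sub]
  exact sub_ne_zero.2 (h.z_ne _ (h.S_add _ hs₀ _ hs))

include hmax

theorem ws_le {s : Ω} (hs : s ∈ S) : v (z - s₀ - s) ≤ v (z - s₀) := by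
  rw [sub_sub]
  exact hmax _ (h.S_add _ hs₀ _ hs)

/-- `v (w - s) = v s` for `v s ≤ v w`. -/
theorem val_ws_of_le {s : Ω} (hs : s ∈ S) (hs0 : s ≠ 0) (hle : v s ≤ v (z - s₀)) :
    v (z - s₀ - s) = v s := by
  have hw := w_ne h hs₀
  rcases hle.lt_or_eq with hlt | heq
  · have h1 := v.add_of_lt (neg_ne_zero.2 hs0) hw (by rw [v.map_neg _ hs0]; exact hlt)
    have h2 : z - s₀ - s = -s + (z - s₀) := by ring
    rw [h2, h1.2, v.map_neg _ hs0]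
  · refine le_antisymm ((ws_le h hs₀ hmax hs).trans heq.ge) ?_
    have h1 := v.map_add hw (neg_ne_zero.2 hs0) (by
      rw [← sub_eq_add_neg]; exact ws_ne h hs₀ hs)
    rw [v.map_neg _ hs0, ← heq, min_self, ← sub_eq_add_neg] at h1
    exact h1

omit hmax in
/-- `v (w - s) = v w` for `v w < v s`. -/
theorem val_ws_of_lt {s : Ω} (hs0 : s ≠ 0) (hlt : v (z - s₀) < v s) :
    v (z - s₀ - s) = v (z - s₀) := by
  have hw := w_ne h hs₀
  have h1 := v.add_of_lt hw (neg_ne_zero.2 hs0) (by rw [v.map_neg _ hs0]; exact hlt)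
  rw [sub_eq_add_neg (z - s₀) s]
  exact h1.2

/-- (1) -/
theorem div_mem {δ : Ω} (hδ : δ ∈ S) (hδ0 : δ ≠ 0) (hle : v δ ≤ v (z - s₀)) :
    (z - s₀) / δ ∈ T := by
  classical
  induction hm : (S.filter (fun s => s ≠ 0 ∧ v s < v δ)).card using Nat.strong_induction_on
    generalizing δ with
  | _ m ih =>
    have hw := w_ne h hs₀
    set S₁ := S.filter (fun s => s ≠ 0 ∧ v s < v δ) with hS₁
    set S₂ := S.filter (fun s => ¬ (s ≠ 0 ∧ v s < v δ)) with hS₂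
    have hprod : ∀ f : Ω → Ω, (∏ s ∈ S₁, f s) * ∏ s ∈ S₂, f s = ∏ s ∈ S, f s := fun f =>
      Finset.prod_filter_mul_prod_filter_not S _ f
    have hm1 : ∀ s ∈ S₁, s ∈ S ∧ s ≠ 0 ∧ v s < v δ := fun s hs => by
      rw [hS₁, Finset.mem_filter] at hs
      exact hs
    have hm2 : ∀ s ∈ S₂, s ∈ S ∧ (s ≠ 0 → v δ ≤ v s) := fun s hs => by
      rw [hS₂, Finset.mem_filter] at hs
      refine ⟨hs.1, fun h0 => ?_⟩
      by_contra hcon
      exact hs.2 ⟨h0, not_le.1 hcon⟩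
    -- the factors of `S₁`
    have hw1 : ∀ s ∈ S₁, (z - s₀) / s ∈ T := by
      intro s hs
      obtain ⟨h1, h2, h3⟩ := hm1 s hs
      refine ih _ ?_ h1 h2 (h3.le.trans hle) rfl
      rw [← hm]
      refine Finset.card_lt_card ⟨fun x hx => ?_, fun hcon => ?_⟩
      · rw [Finset.mem_filter] at hx ⊢
        exact ⟨hx.1, hx.2.1, hx.2.2.trans h3⟩
      · have h4 := hcon hs
        rw [Finset.mem_filter] at h4
        exact lt_irrefl _ h4.2.2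
    have hu1 : ∀ s ∈ S₁, UnT v T ((z - s₀ - s) / s) := by
      intro s hs
      obtain ⟨h1, h2, h3⟩ := hm1 s hs
      refine ⟨?_, div_ne_zero (ws_ne h hs₀ h1) h2, ?_⟩
      · rw [sub_div, div_self h2]
        exact T.sub_mem (hw1 s hs) T.one_mem
      · rw [v.map_div (ws_ne h hs₀ h1) h2, val_ws_of_le h hs₀ hmax h1 h2 (h3.le.trans hle),
          sub_self]
    -- the product
    have hb1 : ∏ s ∈ S₁, s ∈ B := h.B_prod _ _ fun s hs => h.B_S s (hm1 s hs).1 (hm1 s hs).2.1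
    have hb2 : ∏ _s ∈ S₂, δ ∈ B := h.B_prod _ _ fun _ _ => h.B_S δ hδ hδ0
    have hb1n := h.B_ne _ hb1
    have hb2n := h.B_ne _ hb2
    have hb := h.B_inv _ (h.B_mul _ hb1 _ hb2)
    have hF : (∏ s ∈ S, (z - s)) ^ (1 : ℤ) * ((∏ s ∈ S₁, s) * ∏ _s ∈ S₂, δ)⁻¹ =
        (∏ s ∈ S₁, ((z - s₀ - s) / s)) * ∏ s ∈ S₂, ((z - s₀) / δ - s / δ) := by
      rw [zpow_one, h.prod_eq hs₀, ← hprod fun s => z - s₀ - s, Finset.prod_div_distrib]
      have h5 : ∏ s ∈ S₂, ((z - s₀) / δ - s / δ) = ∏ s ∈ S₂, ((z - s₀ - s) / δ) :=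
        Finset.prod_congr rfl fun s _ => by rw [sub_div (z - s₀) s δ]
      rw [h5, Finset.prod_div_distrib]
      field_simp
    have hne2 : ∀ s ∈ S₂, (z - s₀) / δ - s / δ ≠ 0 := by
      intro s hs
      rw [← sub_div]
      exact div_ne_zero (ws_ne h hs₀ (hm2 s hs).1) hδ0
    have hv2 : ∀ s ∈ S₂, 0 ≤ v ((z - s₀) / δ - s / δ) := by
      intro s hs
      obtain ⟨h1, h2⟩ := hm2 s hs
      rw [← sub_div, v.map_div (ws_ne h hs₀ h1) hδ0, sub_nonneg]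
      by_cases h0 : s = 0
      · rw [h0, sub_zero]
        exact hle
      rcases le_or_gt (v s) (v (z - s₀)) with h3 | h3
      · rw [val_ws_of_le h hs₀ hmax h1 h0 h3]
        exact h2 h0
      · rw [val_ws_of_lt h hs₀ h0 h3]
        exact hle
    have hvF : 0 ≤ v ((∏ s ∈ S, (z - s)) ^ (1 : ℤ) * ((∏ s ∈ S₁, s) * ∏ _s ∈ S₂, δ)⁻¹) := by
      rw [hF, v.map_mul (Finset.prod_ne_zero_iff.2 fun s hs => (hu1 s hs).2.1)
        (Finset.prod_ne_zero_iff.2 hne2), v.map_prod _ _ fun s hs => (hu1 s hs).2.1,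
        v.map_prod _ _ hne2]
      refine add_nonneg (Finset.sum_nonneg fun s hs => ?_) (Finset.sum_nonneg hv2)
      rw [(hu1 s hs).2.2]
    have hmem := h.key _ hb 1 hvF
    rw [hF] at hmem
    have hU : UnT v T (∏ s ∈ S₁, ((z - s₀ - s) / s)) := by
      refine ⟨T.prod_mem fun s hs => (hu1 s hs).1,
        Finset.prod_ne_zero_iff.2 fun s hs => (hu1 s hs).2.1, ?_⟩
      rw [v.map_prod _ _ fun s hs => (hu1 s hs).2.1]
      exact Finset.sum_eq_zero fun s hs => (hu1 s hs).2.2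
    have h6 : ∏ s ∈ S₂, ((z - s₀) / δ - s / δ) ∈ T := by
      have h7 := T.mul_mem (h.T_unit_inv hU) hmem
      rwa [inv_mul_cancel_left₀ hU.2.1] at h7
    have h0S₂ : (0 : Ω) ∈ S₂ := by
      rw [hS₂, Finset.mem_filter]
      exact ⟨h.S_zero, fun h8 => h8.1 rfl⟩
    have hB' : ∀ s ∈ S, s ∈ Λ := by
      intro s hs
      by_cases h0 : s = 0
      · rw [h0]; exact Λ.zero_mem
      · exact h.B_Λ _ (h.B_S s hs h0)
    refine h.nrm _ ?_ (isIntegral_of_prod S₂ ⟨0, h0S₂⟩ (fun s => s / δ) ?_ h6)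
    · rw [div_eq_mul_inv]
      exact Λ.mul_mem (Λ.sub_mem h.z_mem (hB' _ hs₀)) (h.inv_Λ _ (hB' _ hδ))
    · intro s hs
      obtain ⟨h1, h2⟩ := hm2 s hs
      by_cases h0 : s = 0
      · rw [h0, zero_div]
        exact T.zero_mem
      · exact h.dvd δ hδ s h1 hδ0 h0 (h2 h0)

omit hs₀ hmax in
theorem S_Λ {s : Ω} (hs : s ∈ S) : s ∈ Λ := by
  by_cases h0 : s = 0
  · rw [h0]; exact Λ.zero_mem
  · exact h.B_Λ _ (h.B_S s hs h0)

/-- For `v s ≤ v w` the quotient `(w - s) / s` is a unit of `T`. -/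
theorem unT_of_le {s : Ω} (hs : s ∈ S) (hs0 : s ≠ 0) (hle : v s ≤ v (z - s₀)) :
    UnT v T ((z - s₀ - s) / s) := by
  refine ⟨?_, div_ne_zero (ws_ne h hs₀ hs) hs0, ?_⟩
  · rw [sub_div, div_self hs0]
    exact T.sub_mem (div_mem h hs₀ hmax hs hs0 hle) T.one_mem
  · rw [v.map_div (ws_ne h hs₀ hs) hs0, val_ws_of_le h hs₀ hmax hs hs0 hle, sub_self]

/-- (2) -/
theorem div_mem' {δ : Ω} (hδ : δ ∈ S) (hδ0 : δ ≠ 0) (hlt : v (z - s₀) < v δ) :
    δ / (z - s₀) ∈ T := by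
  classical
  have hw := w_ne h hs₀
  -- the smallest element beyond `w`
  obtain ⟨ε, hε, hε0, hεlt, hmin⟩ : ∃ ε ∈ S, ε ≠ 0 ∧ v (z - s₀) < v ε ∧
      ∀ s ∈ S, s ≠ 0 → v (z - s₀) < v s → v ε ≤ v s := by
    obtain ⟨ε, hε, h1⟩ := Finset.exists_min_image
      (S.filter (fun s => s ≠ 0 ∧ v (z - s₀) < v s)) (fun s => v s)
      ⟨δ, Finset.mem_filter.2 ⟨hδ, hδ0, hlt⟩⟩
    rw [Finset.mem_filter] at hε
    exact ⟨ε, hε.1, hε.2.1, hε.2.2, fun s hs hs0 h2 =>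
      h1 s (Finset.mem_filter.2 ⟨hs, hs0, h2⟩)⟩
  suffices hmem : ε / (z - s₀) ∈ T by
    have h1 := T.mul_mem (h.dvd ε hε δ hδ hε0 hδ0 (hmin δ hδ hδ0 hlt)) hmem
    rwa [div_mul_div_cancel₀ hε0] at h1
  set S₁ := S.filter (fun s => s ≠ 0 ∧ v s ≤ v (z - s₀)) with hS₁
  set S₂ := S.filter (fun s => ¬ (s ≠ 0 ∧ v s ≤ v (z - s₀))) with hS₂
  have hprod : ∀ f : Ω → Ω, (∏ s ∈ S₁, f s) * ∏ s ∈ S₂, f s = ∏ s ∈ S, f s := fun f =>
    Finset.prod_filter_mul_prod_filter_not S _ f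
  have hm1 : ∀ s ∈ S₁, s ∈ S ∧ s ≠ 0 ∧ v s ≤ v (z - s₀) := fun s hs => by
    rw [hS₁, Finset.mem_filter] at hs
    exact hs
  have hm2 : ∀ s ∈ S₂, s ∈ S ∧ (s ≠ 0 → v (z - s₀) < v s) := fun s hs => by
    rw [hS₂, Finset.mem_filter] at hs
    refine ⟨hs.1, fun h0 => ?_⟩
    by_contra hcon
    exact hs.2 ⟨h0, not_lt.1 hcon⟩
  have hb1 : ∏ s ∈ S₁, s ∈ B := h.B_prod _ _ fun s hs => h.B_S s (hm1 s hs).1 (hm1 s hs).2.1
  have hb2 : ∏ _s ∈ S₂, ε ∈ B := h.B_prod _ _ fun _ _ => h.B_S ε hε hε0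
  have hb1n := h.B_ne _ hb1
  have hb2n := h.B_ne _ hb2
  have hb := h.B_mul _ hb1 _ hb2
  have hu1 : ∀ s ∈ S₁, UnT v T ((z - s₀ - s) / s) := fun s hs =>
    unT_of_le h hs₀ hmax (hm1 s hs).1 (hm1 s hs).2.1 (hm1 s hs).2.2
  have hU : UnT v T (∏ s ∈ S₁, ((z - s₀ - s) / s)) := by
    refine ⟨T.prod_mem fun s hs => (hu1 s hs).1,
      Finset.prod_ne_zero_iff.2 fun s hs => (hu1 s hs).2.1, ?_⟩
    rw [v.map_prod _ _ fun s hs => (hu1 s hs).2.1]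
    exact Finset.sum_eq_zero fun s hs => (hu1 s hs).2.2
  have hne2 : ∀ s ∈ S₂, (z - s₀) / ε - s / ε ≠ 0 := by
    intro s hs
    rw [← sub_div]
    exact div_ne_zero (ws_ne h hs₀ (hm2 s hs).1) hε0
  have hne2' : ∏ s ∈ S₂, ((z - s₀) / ε - s / ε) ≠ 0 := Finset.prod_ne_zero_iff.2 hne2
  have hF : (∏ s ∈ S, (z - s)) ^ (-1 : ℤ) * ((∏ s ∈ S₁, s) * ∏ _s ∈ S₂, ε) =
      (∏ s ∈ S₁, ((z - s₀ - s) / s))⁻¹ * (∏ s ∈ S₂, ((z - s₀) / ε - s / ε))⁻¹ := by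
    have hn1 : ∏ s ∈ S₁, (z - s₀ - s) ≠ 0 :=
      Finset.prod_ne_zero_iff.2 fun s hs => ws_ne h hs₀ (hm1 s hs).1
    have hn2 : ∏ s ∈ S₂, (z - s₀ - s) ≠ 0 :=
      Finset.prod_ne_zero_iff.2 fun s hs => ws_ne h hs₀ (hm2 s hs).1
    rw [zpow_neg_one, h.prod_eq hs₀, ← hprod fun s => z - s₀ - s, Finset.prod_div_distrib]
    have h5 : ∏ s ∈ S₂, ((z - s₀) / ε - s / ε) = ∏ s ∈ S₂, ((z - s₀ - s) / ε) :=
      Finset.prod_congr rfl fun s _ => by rw [sub_div (z - s₀) s ε]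
    rw [h5, Finset.prod_div_distrib]
    field_simp
  have hv2 : ∀ s ∈ S₂, v ((z - s₀) / ε - s / ε) ≤ 0 := by
    intro s hs
    rw [← sub_div, v.map_div (ws_ne h hs₀ (hm2 s hs).1) hε0, sub_nonpos]
    exact (ws_le h hs₀ hmax (hm2 s hs).1).trans hεlt.le
  have hvF : 0 ≤ v ((∏ s ∈ S, (z - s)) ^ (-1 : ℤ) * ((∏ s ∈ S₁, s) * ∏ _s ∈ S₂, ε)) := by
    rw [hF, v.map_mul (inv_ne_zero hU.2.1) (inv_ne_zero hne2'), v.map_inv hU.2.1, hU.2.2,
      v.map_inv hne2', v.map_prod _ _ hne2]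
    have := Finset.sum_nonpos hv2
    linarith
  have hmem := h.key _ hb (-1) hvF
  rw [hF] at hmem
  have h6 : (∏ s ∈ S₂, ((z - s₀) / ε - s / ε))⁻¹ ∈ T := by
    have h7 := T.mul_mem hU.1 hmem
    rwa [mul_inv_cancel_left₀ hU.2.1] at h7
  have h0S₂ : (0 : Ω) ∈ S₂ := by
    rw [hS₂, Finset.mem_filter]
    exact ⟨h.S_zero, fun h8 => h8.1 rfl⟩
  have h9 : ((z - s₀) / ε)⁻¹ ∈ T := by
    refine h.nrm _ ?_ (isIntegral_inv_of_prod S₂ (fun s => s / ε) ?_ (div_ne_zero hw hε0) h0S₂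
      (zero_div ε) hne2 h6)
    · rw [inv_div, div_eq_mul_inv]
      exact Λ.mul_mem (S_Λ h hε) (h.inv_Λ _ (Λ.sub_mem h.z_mem (S_Λ h hs₀)))
    · intro s hs
      by_cases h0 : s = 0
      · rw [h0, zero_div]
        exact T.zero_mem
      · exact h.dvd ε hε s (hm2 s hs).1 hε0 h0 (hmin s (hm2 s hs).1 h0 ((hm2 s hs).2 h0))
  rwa [inv_div] at h9

/-- For `v w < v s` (or `s = 0`) the quotient `(w - s) / w` is a unit of `T`. -/
theorem unT_of_lt {s : Ω} (hs : s ∈ S) (hlt : s ≠ 0 → v (z - s₀) < v s) :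
    UnT v T ((z - s₀ - s) / (z - s₀)) := by
  have hw := w_ne h hs₀
  refine ⟨?_, div_ne_zero (ws_ne h hs₀ hs) hw, ?_⟩
  · rw [sub_div, div_self hw]
    refine T.sub_mem T.one_mem ?_
    by_cases h0 : s = 0
    · rw [h0, zero_div]
      exact T.zero_mem
    · exact div_mem' h hs₀ hmax hs h0 (hlt h0)
  · by_cases h0 : s = 0
    · rw [h0, sub_zero, div_self hw, v.map_one]
    · rw [v.map_div (ws_ne h hs₀ hs) hw, val_ws_of_lt h hs₀ h0 (hlt h0), sub_self]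

/-- (3) `F = w ^ N * b * unit`. -/
theorem prod_form : ∃ (N : ℕ) (b : Ω), 0 < N ∧ b ∈ B ∧
    UnT v T ((∏ s ∈ S, (z - s)) / ((z - s₀) ^ N * b)) := by
  classical
  have hw := w_ne h hs₀
  set S₁ := S.filter (fun s => s ≠ 0 ∧ v s ≤ v (z - s₀)) with hS₁
  set S₂ := S.filter (fun s => ¬ (s ≠ 0 ∧ v s ≤ v (z - s₀))) with hS₂
  have hprod : ∀ f : Ω → Ω, (∏ s ∈ S₁, f s) * ∏ s ∈ S₂, f s = ∏ s ∈ S, f s := fun f =>
    Finset.prod_filter_mul_prod_filter_not S _ f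
  have hm1 : ∀ s ∈ S₁, s ∈ S ∧ s ≠ 0 ∧ v s ≤ v (z - s₀) := fun s hs => by
    rw [hS₁, Finset.mem_filter] at hs
    exact hs
  have hm2 : ∀ s ∈ S₂, s ∈ S ∧ (s ≠ 0 → v (z - s₀) < v s) := fun s hs => by
    rw [hS₂, Finset.mem_filter] at hs
    refine ⟨hs.1, fun h0 => ?_⟩
    by_contra hcon
    exact hs.2 ⟨h0, not_lt.1 hcon⟩
  have hb1 : ∏ s ∈ S₁, s ∈ B := h.B_prod _ _ fun s hs => h.B_S s (hm1 s hs).1 (hm1 s hs).2.1
  have h0S₂ : (0 : Ω) ∈ S₂ := by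
    rw [hS₂, Finset.mem_filter]
    exact ⟨h.S_zero, fun h8 => h8.1 rfl⟩
  refine ⟨S₂.card, ∏ s ∈ S₁, s, Finset.card_pos.2 ⟨0, h0S₂⟩, hb1, ?_⟩
  have h1 : (∏ s ∈ S, (z - s)) / ((z - s₀) ^ S₂.card * ∏ s ∈ S₁, s) =
      (∏ s ∈ S₁, ((z - s₀ - s) / s)) * ∏ s ∈ S₂, ((z - s₀ - s) / (z - s₀)) := by
    rw [h.prod_eq hs₀, ← hprod fun s => z - s₀ - s, Finset.prod_div_distrib,
      Finset.prod_div_distrib, Finset.prod_const, div_mul_div_comm, mul_comm ((z - s₀) ^ S₂.card)]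
  rw [h1]
  have hu1 : ∀ s ∈ S₁, UnT v T ((z - s₀ - s) / s) := fun s hs =>
    unT_of_le h hs₀ hmax (hm1 s hs).1 (hm1 s hs).2.1 (hm1 s hs).2.2
  have hu2 : ∀ s ∈ S₂, UnT v T ((z - s₀ - s) / (z - s₀)) := fun s hs =>
    unT_of_lt h hs₀ hmax (hm2 s hs).1 (hm2 s hs).2
  have hn1 : ∏ s ∈ S₁, ((z - s₀ - s) / s) ≠ 0 :=
    Finset.prod_ne_zero_iff.2 fun s hs => (hu1 s hs).2.1
  have hn2 : ∏ s ∈ S₂, ((z - s₀ - s) / (z - s₀)) ≠ 0 :=
    Finset.prod_ne_zero_iff.2 fun s hs => (hu2 s hs).2.1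
  refine ⟨T.mul_mem (T.prod_mem fun s hs => (hu1 s hs).1) (T.prod_mem fun s hs => (hu2 s hs).1),
    mul_ne_zero hn1 hn2, ?_⟩
  rw [v.map_mul hn1 hn2, v.map_prod _ _ fun s hs => (hu1 s hs).2.1,
    v.map_prod _ _ fun s hs => (hu2 s hs).2.1, Finset.sum_eq_zero fun s hs => (hu1 s hs).2.2,
    Finset.sum_eq_zero fun s hs => (hu2 s hs).2.2, add_zero]

omit hs₀ hmax in
theorem unT_zpow {f : Ω} (hf : UnT v T f) (n : ℤ) : UnT v T (f ^ n) := by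
  refine ⟨?_, zpow_ne_zero _ hf.2.1, by rw [v.map_zpow hf.2.1, hf.2.2, mul_zero]⟩
  cases n with
  | ofNat n =>
    rw [Int.ofNat_eq_natCast, zpow_natCast]
    exact T.pow_mem hf.1 n
  | negSucc n =>
    rw [zpow_negSucc, ← inv_pow]
    exact T.pow_mem (h.T_unit_inv hf) _

/-- (4) The monomials in `w` and in the base monomials, of value `≥ 0`, are in `T`. -/
theorem mono_mem {b : Ω} (hb : b ∈ B) (a : ℤ) (hv : 0 ≤ v ((z - s₀) ^ a * b)) :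
    (z - s₀) ^ a * b ∈ T := by
  have hw := w_ne h hs₀
  have hb0 := h.B_ne _ hb
  obtain ⟨N, c, hN, hc, hu⟩ := prod_form h hs₀ hmax
  have hc0 := h.B_ne _ hc
  set u := (∏ s ∈ S, (z - s)) / ((z - s₀) ^ N * c) with hudef
  set F := ∏ s ∈ S, (z - s) with hFdef
  have hF0 : F ≠ 0 := by
    intro h0
    apply hu.2.1
    rw [hudef, h0, zero_div]
  have hwN : (z - s₀) ^ N = F * c⁻¹ * u⁻¹ := by
    rw [hudef]
    have h1 : (z - s₀) ^ N ≠ 0 := pow_ne_zero _ hw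
    field_simp
  have hpow : ((z - s₀) ^ a * b) ^ N = F ^ a * (c ^ (-a) * b ^ N) * u ^ (-a) := by
    rw [mul_pow, ← zpow_natCast ((z - s₀) ^ a) N, ← zpow_mul, mul_comm a (N : ℤ), zpow_mul,
      zpow_natCast, hwN, mul_zpow, mul_zpow, inv_zpow, inv_zpow, zpow_neg, zpow_neg]
    ring
  have hBm : c ^ (-a) * b ^ N ∈ B := h.B_mul _ (h.B_zpow hc _) _ (h.B_pow hb N)
  have hu' := unT_zpow h hu (-a)
  have hval : 0 ≤ v (F ^ a * (c ^ (-a) * b ^ N)) := by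
    have h2 : v (((z - s₀) ^ a * b) ^ N) = v (F ^ a * (c ^ (-a) * b ^ N)) + v (u ^ (-a)) := by
      rw [hpow, v.map_mul (mul_ne_zero (zpow_ne_zero _ hF0) (h.B_ne _ hBm)) hu'.2.1]
    rw [hu'.2.2, add_zero, v.map_pow (mul_ne_zero (zpow_ne_zero _ hw) hb0)] at h2
    rw [← h2]
    exact mul_nonneg (Nat.cast_nonneg _) hv
  have hmem : ((z - s₀) ^ a * b) ^ N ∈ T := by
    rw [hpow]
    exact T.mul_mem (h.key _ hBm a hval) hu'.1
  have hΛ : ∀ n : ℤ, (z - s₀) ^ n ∈ Λ := by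
    intro n
    have h3 : z - s₀ ∈ Λ := Λ.sub_mem h.z_mem (S_Λ h hs₀)
    cases n with
    | ofNat n =>
      rw [Int.ofNat_eq_natCast, zpow_natCast]
      exact Λ.pow_mem h3 n
    | negSucc n =>
      rw [zpow_negSucc]
      exact h.inv_Λ _ (Λ.pow_mem h3 _)
  refine h.nrm _ (Λ.mul_mem (hΛ a) (h.B_Λ _ hb)) ?_
  have h4 : IsIntegral T (((z - s₀) ^ a * b) ^ N) := isIntegral_algebraMap (x := (⟨_, hmem⟩ : T))
  exact h4.of_pow hN

/-- (5) Every `z - s` is, up to a unit of `T`, `w` or an element of `S`. -/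
theorem factor_form {s : Ω} (hs : s ∈ S) :
    UnT v T ((z - s) / (z - s₀)) ∨ ∃ s' ∈ S, s' ≠ 0 ∧ v s' ≤ v (z - s₀) ∧
      s' = s - s₀ ∧ UnT v T ((z - s) / s') := by
  have h1 : s - s₀ ∈ S := h.S_sub hs hs₀
  have h2 : z - s = z - s₀ - (s - s₀) := by ring
  by_cases h3 : s - s₀ = 0
  · left
    rw [h2]
    exact unT_of_lt h hs₀ hmax h1 fun h4 => absurd h3 h4
  rcases le_or_gt (v (s - s₀)) (v (z - s₀)) with h4 | h4
  · right
    refine ⟨s - s₀, h1, h3, h4, rfl, ?_⟩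
    rw [h2]
    exact unT_of_le h hs₀ hmax h1 h3 h4
  · left
    rw [h2]
    exact unT_of_lt h hs₀ hmax h1 fun _ => h4

end W

end LD

end Levels

end Pool.Agent.TGH17
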