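import Pool.Agent.Lib.TG_h17.Levels
import Pool.Agent.Lib.TGE_h58.Horner

/-!
# TANK G: Lemma M (abstract form)

`T` is a local ring dominated by `v`, integrally closed in `Λ`; `B` is a group of monomials (it
contains the units of `T` and the factors in `T` of its elements). If all nonzero coefficients of
`∏ (X - r_i)` are in `B`, then all `r_i` are in `B`.
-/

set_option autoImplicit false

open Polynomial

namespace Pool.Agent.TGH17

open Pool.Agent.TAO (OVal VPos)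

universe u w

variable {k Ω : Type u} [Field k] [Field Ω] [Algebra k Ω] {𝕂 : Type w} [Field 𝕂] [LinearOrder 𝕂]
  [IsStrictOrderedRing 𝕂]

/-- **Lemma M, first half.** -/
theorem mem_or_inv_mem_of_coeffs {v : OVal 𝕂 Ω} {T Λ : Subalgebra k Ω}
    (hnonneg : ∀ f ∈ T, v.Ge 0 f) (hloc : ∀ f ∈ T, f ≠ 0 → v f = 0 → f⁻¹ ∈ T)
    (hnrm : ∀ x ∈ Λ, IsIntegral T x → x ∈ T) (hle : T ≤ Λ) {P : Polynomial Ω} {r : Ω}
    (hr : P.eval r = 0) (hrΛ : r ∈ Λ) {j : ℕ} (hj : P.coeff j ≠ 0)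
    (h : ∀ i, P.coeff i / P.coeff j ∈ T) : r ∈ T ∨ r⁻¹ ∈ T := by
  obtain ⟨A, B, h1, hA, hB, hrA, hrB, hE⟩ := TGE58.horner_int T.toSubring P r hr j hj h
  obtain ⟨hAΛ, hBΛ⟩ := hE Λ.toSubring (fun i => hle (h i)) hrΛ
  have hAT : A ∈ T := hnrm _ hAΛ hA
  have hBT : B ∈ T := hnrm _ hBΛ hB
  have hrAT : r * A ∈ T := hnrm _ (Λ.mul_mem hrΛ hAΛ) hrA
  have hrBT : r * B ∈ T := hnrm _ (Λ.mul_mem hrΛ hBΛ) hrB
  by_cases hA0 : A ≠ 0 ∧ v A = 0
  · left
    have h2 := T.mul_mem hrAT (hloc _ hAT hA0.1 hA0.2)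
    rwa [mul_inv_cancel_right₀ hA0.1] at h2
  · right
    have hApos : VPos v A := by
      intro h0
      refine lt_of_le_of_ne (hnonneg _ hAT h0) fun h3 => hA0 ⟨h0, h3.symm⟩
    have h3 : r * B = -1 + A := by rw [← h1]; ring
    obtain ⟨h4, h5⟩ := TAO.val_add_vpos (v := v) (neg_ne_zero.2 (one_ne_zero (α := Ω)))
      v.map_neg_one hApos
    rw [← h3] at h4 h5
    have h6 := T.mul_mem hBT (hloc _ hrBT h4 h5)
    have hB0 : B ≠ 0 := right_ne_zero_of_mul h4
    rwa [mul_inv, mul_comm r⁻¹, mul_inv_cancel_left₀ hB0] at h6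

/-- Products `∏ (1 - a_i X)`, `a_i ∈ m_T`, are `1` modulo `m_T`. -/
theorem prod_one_sub {v : OVal 𝕂 Ω} {T : Subalgebra k Ω} (hnonneg : ∀ f ∈ T, v.Ge 0 f)
    {ι : Type*} (s : Finset ι) (a : ι → Ω) (ha : ∀ i ∈ s, a i ∈ T ∧ VPos v (a i)) :
    ∀ j, (∏ i ∈ s, (1 - C (a i) * X)).coeff j ∈ T ∧
      VPos v ((∏ i ∈ s, (1 - C (a i) * X) : Polynomial Ω).coeff j - if j = 0 then 1 else 0) := by
  classical
  induction s using Finset.induction_on with
  | empty =>
    intro j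
    rw [Finset.prod_empty, coeff_one]
    split_ifs
    · refine ⟨T.one_mem, ?_⟩
      rw [sub_self]
      exact VPos.zero
    · refine ⟨T.zero_mem, ?_⟩
      rw [sub_self]
      exact VPos.zero
  | insert b s hb ih =>
    have ih' := ih fun i hi => ha i (Finset.mem_insert_of_mem hi)
    obtain ⟨h1, h2⟩ := ha b (Finset.mem_insert_self b s)
    intro j
    rw [Finset.prod_insert hb]
    set G := ∏ i ∈ s, (1 - C (a i) * X) with hG
    have h3 : ((1 - C (a b) * X) * G).coeff j =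
        G.coeff j - a b * (if j = 0 then 0 else G.coeff (j - 1)) := by
      have h4 : (1 - C (a b) * X) * G = G - C (a b) * (X * G) := by ring
      rw [h4, coeff_sub, coeff_C_mul]
      congr 2
      cases j with
      | zero => simp
      | succ j => simp
    rw [h3]
    have h5 : (if j = 0 then 0 else G.coeff (j - 1)) ∈ T := by
      split_ifs
      · exact T.zero_mem
      · exact (ih' _).1
    refine ⟨T.sub_mem (ih' j).1 (T.mul_mem h1 h5), ?_⟩
    have h6 : G.coeff j - a b * (if j = 0 then 0 else G.coeff (j - 1)) - (if j = 0 then 1 else 0) =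
        (G.coeff j - (if j = 0 then 1 else 0)) - a b * (if j = 0 then 0 else G.coeff (j - 1)) := by
      ring
    rw [h6]
    exact (ih' j).2.sub (h2.mul (hnonneg _ h5))

/-- **Lemma M, second half.** -/
theorem mono_of_coeffs {v : OVal 𝕂 Ω} {T : Subalgebra k Ω} {B : Set Ω}
    (hnonneg : ∀ f ∈ T, v.Ge 0 f) (hloc : ∀ f ∈ T, f ≠ 0 → v f = 0 → f⁻¹ ∈ T)
    (hB1 : (1 : Ω) ∈ B) (hBmul : ∀ a ∈ B, ∀ b ∈ B, a * b ∈ B) (hBinv : ∀ a ∈ B, a⁻¹ ∈ B)
    (hfac : ∀ a ∈ T, ∀ b ∈ T, a * b ∈ B → a ∈ B)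
    {ι : Type*} (s : Finset ι) (r : ι → Ω) (hr0 : ∀ i ∈ s, r i ≠ 0)
    (hr : ∀ i ∈ s, r i ∈ T ∨ (r i)⁻¹ ∈ T)
    (hc : ∀ j, (∏ i ∈ s, (X - C (r i))).coeff j ≠ 0 → (∏ i ∈ s, (X - C (r i))).coeff j ∈ B) :
    ∀ i ∈ s, r i ∈ B := by
  classical
  -- units
  have hunit : ∀ u ∈ T, u ≠ 0 → v u = 0 → u ∈ B := by
    intro u hu hu0 hvu
    refine hfac u hu _ (hloc u hu hu0 hvu) ?_
    rw [mul_inv_cancel₀ hu0]
    exact hB1
  have hneg1 : (-1 : Ω) ∈ B := hunit _ (T.neg_mem T.one_mem) (neg_ne_zero.2 one_ne_zero)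
    v.map_neg_one
  have hneg : ∀ a ∈ B, -a ∈ B := fun a ha => by
    have := hBmul _ hneg1 _ ha
    rwa [neg_one_mul] at this
  -- factors of products
  have hfacp : ∀ (t : Finset ι) (f : ι → Ω), (∀ i ∈ t, f i ∈ T) → ∏ i ∈ t, f i ∈ B →
      ∀ i ∈ t, f i ∈ B := by
    intro t f hf hp i hi
    refine hfac _ (hf i hi) (∏ j ∈ t.erase i, f j) (T.prod_mem fun j hj =>
      hf j (Finset.mem_of_mem_erase hj)) ?_
    rwa [Finset.mul_prod_erase t f hi]
  set N := s.filter (fun i => ¬ r i ∈ T) with hN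
  set M := s.filter (fun i => r i ∈ T) with hM
  have hm1 : ∀ i ∈ N, i ∈ s ∧ r i ∉ T := fun i hi => by
    rw [hN, Finset.mem_filter] at hi
    exact hi
  have hm2 : ∀ i ∈ M, i ∈ s ∧ r i ∈ T := fun i hi => by
    rw [hM, Finset.mem_filter] at hi
    exact hi
  have hsplit : ∏ i ∈ s, (X - C (r i)) = (∏ i ∈ M, (X - C (r i))) * ∏ i ∈ N, (X - C (r i)) :=
    (Finset.prod_filter_mul_prod_filter_not s (fun i => r i ∈ T) _).symm
  have hN1 : ∀ i ∈ N, (r i)⁻¹ ∈ T ∧ VPos v (r i)⁻¹ := by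
    intro i hi
    obtain ⟨h1, h2⟩ := hm1 i hi
    have h3 := (hr i h1).resolve_left h2
    refine ⟨h3, fun h0 => lt_of_le_of_ne (hnonneg _ h3 h0) fun h4 => h2 ?_⟩
    have h5 := hloc _ h3 h0 h4.symm
    rwa [inv_inv] at h5
  have hNprod : ∏ i ∈ N, (X - C (r i)) =
      C (∏ i ∈ N, (- r i)) * ∏ i ∈ N, (1 - C (r i)⁻¹ * X) := by
    rw [map_prod, ← Finset.prod_mul_distrib]
    refine Finset.prod_congr rfl fun i hi => ?_
    have h1 : C (r i) * C (r i)⁻¹ = (1 : Polynomial Ω) := by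
      rw [← C_mul, mul_inv_cancel₀ (hr0 i (hm1 i hi).1), C_1]
    calc X - C (r i) = (C (r i) * C (r i)⁻¹) * X - C (r i) := by rw [h1, one_mul]
      _ = C (- r i) * (1 - C (r i)⁻¹ * X) := by rw [C_neg]; ring
  set ρ := ∏ i ∈ N, (- r i) with hρ
  have hρ0 : ρ ≠ 0 := Finset.prod_ne_zero_iff.2 fun i hi => neg_ne_zero.2 (hr0 i (hm1 i hi).1)
  set G := ∏ i ∈ N, (1 - C (r i)⁻¹ * X) with hG
  have hGc := prod_one_sub hnonneg N (fun i => (r i)⁻¹) hN1
  set Q := ∏ i ∈ M, (X - C (r i)) with hQ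
  have hQc : ∀ j, Q.coeff j ∈ T := by
    intro j
    have h1 : Q ∈ Polynomial.lifts (algebraMap T Ω) := by
      rw [hQ]
      refine Subsemiring.prod_mem _ fun i hi => ?_
      refine (Polynomial.lifts_iff_coeff_lifts _).2 fun l => ?_
      rw [coeff_sub, coeff_X, coeff_C]
      have h2 : ((if 1 = l then 1 else 0) - if l = 0 then r i else 0 : Ω) ∈ T := by
        refine T.sub_mem ?_ ?_
        · split_ifs
          · exact T.one_mem
          · exact T.zero_mem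
        · split_ifs
          · exact (hm2 i hi).2
          · exact T.zero_mem
      exact ⟨⟨_, h2⟩, rfl⟩
    obtain ⟨c, hc⟩ := (Polynomial.lifts_iff_coeff_lifts _).1 h1 j
    rw [← hc]
    exact c.2
  have hQm : Q.Monic := monic_prod_X_sub_C r M
  have hQd : Q.natDegree = M.card := by
    rw [hQ, natDegree_finsetProd_X_sub_C_eq_card]
  -- the coefficient of index `M.card`
  have hcoef : VPos v ((Q * G).coeff M.card - 1) ∧ (Q * G).coeff M.card ∈ T := by
    rw [coeff_mul]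
    have h1 : ∀ x ∈ Finset.HasAntidiagonal.antidiagonal M.card, Q.coeff x.1 * G.coeff x.2 ∈ T := fun x _ =>
      T.mul_mem (hQc _) (hGc _).1
    refine ⟨?_, T.sum_mem h1⟩
    have h2 : (M.card, 0) ∈ Finset.HasAntidiagonal.antidiagonal M.card := by
      rw [Finset.HasAntidiagonal.mem_antidiagonal, add_zero]
    rw [← Finset.add_sum_erase _ _ h2]
    have h3 : Q.coeff M.card = 1 := by
      rw [← hQd]
      exact hQm
    have h4 : VPos v (G.coeff 0 - 1) := by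
      have := (hGc 0).2
      rwa [if_pos rfl] at this
    have h5 : VPos v (∑ x ∈ (Finset.HasAntidiagonal.antidiagonal M.card).erase (M.card, 0),
        Q.coeff x.1 * G.coeff x.2) := by
      have h6 : ∀ t : Finset (ℕ × ℕ), (∀ x ∈ t, x.2 ≠ 0) →
          VPos v (∑ x ∈ t, Q.coeff x.1 * G.coeff x.2) := by
        intro t
        induction t using Finset.induction_on with
        | empty =>
          intro _
          rw [Finset.sum_empty]
          exact VPos.zero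
        | insert a t ha ih =>
          intro hx
          rw [Finset.sum_insert ha]
          refine VPos.add (VPos.mul' (hnonneg _ (hQc _)) ?_)
            (ih fun x hx' => hx x (Finset.mem_insert_of_mem hx'))
          have h7 := (hGc a.2).2
          rwa [if_neg (hx a (Finset.mem_insert_self a t)), sub_zero] at h7
      refine h6 _ fun x hx hx2 => ?_
      rw [Finset.mem_erase, Finset.HasAntidiagonal.mem_antidiagonal, hx2, add_zero] at hx
      exact hx.1 (Prod.ext hx.2 hx2)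
    have h8 : Q.coeff M.card * G.coeff 0 + (∑ x ∈ (Finset.HasAntidiagonal.antidiagonal M.card).erase (M.card, 0),
        Q.coeff x.1 * G.coeff x.2) - 1 = (G.coeff 0 - 1) +
        ∑ x ∈ (Finset.HasAntidiagonal.antidiagonal M.card).erase (M.card, 0), Q.coeff x.1 * G.coeff x.2 := by
      rw [h3]
      ring
    change VPos v (Q.coeff M.card * G.coeff 0 + (∑ x ∈ (Finset.HasAntidiagonal.antidiagonal M.card).erase
      (M.card, 0), Q.coeff x.1 * G.coeff x.2) - 1)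
    rw [h8]
    exact h4.add h5
  have hun := TAO.val_add_vpos (v := v) (one_ne_zero (α := Ω)) v.map_one hcoef.1
  rw [add_sub_cancel] at hun
  have hP : ∏ i ∈ s, (X - C (r i)) = C ρ * (Q * G) := by
    rw [hsplit, hNprod]
    ring
  -- `ρ ∈ B`
  have hρB : ρ ∈ B := by
    have h1 : (∏ i ∈ s, (X - C (r i))).coeff M.card = ρ * (Q * G).coeff M.card := by
      rw [hP, coeff_C_mul]
    have h2 := hc M.card (by rw [h1]; exact mul_ne_zero hρ0 hun.1)
    rw [h1] at h2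
    have h3 := hBmul _ h2 _ (hBinv _ (hunit _ hcoef.2 hun.1 hun.2))
    rwa [mul_inv_cancel_right₀ hun.1] at h3
  intro i hi
  by_cases hiT : r i ∈ T
  · -- the roots in `T`
    have h1 : (∏ i ∈ s, (X - C (r i))).coeff 0 = ∏ i ∈ s, (- r i) := by
      rw [coeff_zero_eq_eval_zero, eval_prod]
      refine Finset.prod_congr rfl fun i _ => ?_
      rw [eval_sub, eval_X, eval_C, zero_sub]
    have h2 : ∏ i ∈ s, (- r i) ≠ 0 :=
      Finset.prod_ne_zero_iff.2 fun i hi => neg_ne_zero.2 (hr0 i hi)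
    have h3 := hc 0 (by rw [h1]; exact h2)
    rw [h1, ← Finset.prod_filter_mul_prod_filter_not s (fun i => r i ∈ T)] at h3
    have h4 := hBmul _ h3 _ (hBinv _ hρB)
    rw [hρ, hN, mul_inv_cancel_right₀ (by rw [← hN, ← hρ]; exact hρ0)] at h4
    have h5 := hfacp M (fun i => - r i) (fun i hi => T.neg_mem (hm2 i hi).2) h4 i
      (by rw [hM, Finset.mem_filter]; exact ⟨hi, hiT⟩)
    have h6 := hneg _ h5
    rwa [neg_neg] at h6
  · have hiN : i ∈ N := by rw [hN, Finset.mem_filter]; exact ⟨hi, hiT⟩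
    have h1 : ∏ i ∈ N, (- r i)⁻¹ ∈ B := by
      rw [Finset.prod_inv_distrib]
      exact hBinv _ hρB
    have h2 := hfacp N (fun i => (- r i)⁻¹) (fun i hi => by
      rw [inv_neg]
      exact T.neg_mem (hN1 i hi).1) h1 i hiN
    have h3 := hneg _ (hBinv _ h2)
    rwa [inv_inv, neg_neg] at h3

/-- **Lemma M.** -/
theorem lemM {v : OVal 𝕂 Ω} {T Λ : Subalgebra k Ω} {B : Set Ω}
    (hnonneg : ∀ f ∈ T, v.Ge 0 f) (hloc : ∀ f ∈ T, f ≠ 0 → v f = 0 → f⁻¹ ∈ T)
    (hnrm : ∀ x ∈ Λ, IsIntegral T x → x ∈ T) (hle : T ≤ Λ)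
    (hBT : ∀ b ∈ B, 0 ≤ v b → b ∈ T)
    (hB1 : (1 : Ω) ∈ B) (hBmul : ∀ a ∈ B, ∀ b ∈ B, a * b ∈ B) (hBinv : ∀ a ∈ B, a⁻¹ ∈ B)
    (hfac : ∀ a ∈ T, ∀ b ∈ T, a * b ∈ B → a ∈ B)
    {ι : Type*} (s : Finset ι) (r : ι → Ω) (hr0 : ∀ i ∈ s, r i ≠ 0) (hrΛ : ∀ i ∈ s, r i ∈ Λ)
    (hc : ∀ j, (∏ i ∈ s, (X - C (r i))).coeff j ≠ 0 → (∏ i ∈ s, (X - C (r i))).coeff j ∈ B) :
    ∀ i ∈ s, r i ∈ B := by
  classical
  refine mono_of_coeffs hnonneg hloc hB1 hBmul hBinv hfac s r hr0 (fun i hi => ?_) hc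
  set P := ∏ i ∈ s, (X - C (r i)) with hP
  have hP0 : P ≠ 0 := (monic_prod_X_sub_C r s).ne_zero
  -- the coefficient of minimal value
  obtain ⟨j, hj, hmin⟩ := Finset.exists_min_image P.support (fun j => v (P.coeff j))
    (Polynomial.support_nonempty.2 hP0)
  rw [mem_support_iff] at hj
  refine mem_or_inv_mem_of_coeffs hnonneg hloc hnrm hle (P := P) ?_ (hrΛ i hi) hj fun l => ?_
  · rw [hP, eval_prod]
    refine Finset.prod_eq_zero hi ?_
    rw [eval_sub, eval_X, eval_C, sub_self]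
  · by_cases hl : P.coeff l = 0
    · rw [hl, zero_div]
      exact T.zero_mem
    · have h1 : P.coeff l * (P.coeff j)⁻¹ ∈ B := hBmul _ (hc l hl) _ (hBinv _ (hc j hj))
      rw [div_eq_mul_inv]
      refine hBT _ h1 ?_
      rw [← div_eq_mul_inv, v.map_div hl hj, sub_nonneg]
      exact hmin l (mem_support_iff.2 hl)

end Pool.Agent.TGH17
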